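import Mathlib
import Pool.Agent.H585R2.FF8

set_option autoImplicit false

/-!
# A field coding the graph with no edges

Let `P(x, t) = t ^ 3 - 2 (x ^ 6 + x ^ 5 + 1)`. There is a field `K` of characteristic `0`, generated
over `ℚ` by elements `x i`, `t i` with `P(x i, t i) = 0`, with `x` algebraically independent over
`ℚ`, such that every permutation of the `x i` extends to exactly one automorphism of `K`, and such
that the elements `x i` are the only `a` in `K` for which `P(a, T)` has a root in `K`.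
-/

namespace Pool.Agent.Results.MP_7de982_lc.EmptyGraphCoding

open Pool.Agent.H585R2.FF

/-- Full answer (yes) to Q2: here `P(x, t)` is a polynomial in `X 0 = x`, `X 1 = t`. -/
theorem result : ∃ (P : MvPolynomial (Fin 2) ℚ) (K : Type) (_ : Field K) (_ : CharZero K)
    (x t : ℕ → K),
    -- `K` is generated over `ℚ` by the `x i` and the `t i`
    IntermediateField.adjoin ℚ (Set.range x ∪ Set.range t) = ⊤ ∧
    -- the `x i` are algebraically independent over `ℚ` (in particular pairwise different)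
    AlgebraicIndependent ℚ x ∧
    -- `P(x i, t i) = 0`
    (∀ i, MvPolynomial.aeval ![x i, t i] P = 0) ∧
    -- every permutation `π` is induced by exactly one automorphism
    (∀ π : Equiv.Perm ℕ, ∃! σ : K ≃+* K, ∀ i, σ (x i) = x (π i)) ∧
    -- `S_P(K)` is the set of all `x i`
    {a : K | ∃ b : K, MvPolynomial.aeval ![a, b] P = 0} = Set.range x := by
  have hP : ∀ a b : KK, MvPolynomial.aeval ![a, b]
      (MvPolynomial.X 1 ^ 3 - (2 * MvPolynomial.X 0 ^ 6 + 2 * MvPolynomial.X 0 ^ 5 + 2) :
        MvPolynomial (Fin 2) ℚ) = 0 ↔ b ^ 3 = 2 * a ^ 6 + 2 * a ^ 5 + 2 := by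
    intro a b
    simp only [map_sub, map_add, map_mul, map_pow, MvPolynomial.aeval_X, map_ofNat, sub_eq_zero,
      Matrix.cons_val_zero, Matrix.cons_val_one]
  refine ⟨MvPolynomial.X 1 ^ 3 - (2 * MvPolynomial.X 0 ^ 6 + 2 * MvPolynomial.X 0 ^ 5 + 2), KK,
    inferInstance, inferInstance, xk, tk, adjoin_KK, algInd_xk, fun i => (hP _ _).2 (tk_pow i),
    fun π => ?_, ?_⟩
  · exact ⟨kkAut π, fun i => Subtype.ext (omAut_xo π i), fun σ hσ => unique_aut π σ hσ⟩
  · ext a
    constructor
    · rintro ⟨b, hb⟩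
      obtain ⟨j, h1, -⟩ := points_KK ((hP a b).1 hb)
      exact ⟨j, h1.symm⟩
    · rintro ⟨j, rfl⟩
      exact ⟨tk j, (hP _ _).2 (tk_pow j)⟩

end Pool.Agent.Results.MP_7de982_lc.EmptyGraphCoding
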